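import Pool.Agent.Lib.MP_884c22_co.Defs
import Pool.Agent.Lib.MP_884c22_co.Proof

set_option autoImplicit false

namespace Pool.Agent.Results.MP_884c22_co.DegreeFourSupport

open Pool.Agent.Lib.MP_884c22_co
open Matrix

/-- There is a graph (on 290 vertices) with proper fractional revival on `{a, b}` such that the
eigenvalue support of `a` contains an eigenvalue of degree at least 3 over `ℚ`. -/
theorem result : ∃ (X : SimpleGraph (Fin 290)) (_ : DecidableRel X.Adj) (a b : Fin 290),
    ProperFractionalRevival X a b ∧ ∃ θ ∈ eigenSupport X a, 3 ≤ (minpoly ℚ θ).natDegree :=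
  main_result

end Pool.Agent.Results.MP_884c22_co.DegreeFourSupport
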